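import Pool.Agent.R524.AO.Main

/-!
# There is no symmetric linear (2, p, p)-AONT in standard form for primes p > 5
-/

set_option autoImplicit false

namespace Pool.Agent.Results.MP_e1f2d0_co.NoSymmetricStandardForm

/-- `M` is a linear `(t, s, p)`-all-or-nothing transform: `M` is invertible and every `t × t`
submatrix of `M` (any `t` rows and any `t` columns) is invertible. -/
def IsLinearAONT (t : ℕ) {s p : ℕ} (M : Matrix (Fin s) (Fin s) (ZMod p)) : Prop :=
  IsUnit M.det ∧ ∀ r c : Fin t → Fin s, Function.Injective r → Function.Injective c →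
    IsUnit (M.submatrix r c).det

/-- Standard form; the rows and columns `1, …, p` are here `0, …, p - 1`. The last diagonal entry is
arbitrary. -/
def StandardForm {p : ℕ} (M : Matrix (Fin p) (Fin p) (ZMod p)) : Prop :=
  (∀ i : Fin p, (i : ℕ) = 0 → M i i = 0) ∧
  (∀ i j : Fin p, (i : ℕ) = 0 → (j : ℕ) ≠ 0 → M i j = 1 ∧ M j i = 1) ∧
  (∀ i : Fin p, (i : ℕ) ≠ 0 → (i : ℕ) ≠ p - 1 → M i i = 0)

theorem result : ∀ p : ℕ, p.Prime → 5 < p →
    ¬ ∃ M : Matrix (Fin p) (Fin p) (ZMod p), M.IsSymm ∧ StandardForm M ∧ IsLinearAONT 2 M := by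
  rintro p hp h5 ⟨M, hsymm, ⟨-, hs2, hs3⟩, -, hM⟩
  haveI : Fact p.Prime := ⟨hp⟩
  have hp7 : 7 ≤ p := by
    by_contra hlt
    have : p = 6 := by omega
    rw [this] at hp
    norm_num at hp
  -- the two by two minors
  have hdet : ∀ i i' j j' : Fin p, i ≠ i' → j ≠ j' → M i j * M i' j' ≠ M i j' * M i' j := by
    intro i i' j j' hi hj hh
    have h1 := hM ![i, i'] ![j, j'] (by
      intro x y hxy
      fin_cases x <;> fin_cases y <;> simp_all) (by
      intro x y hxy
      fin_cases x <;> fin_cases y <;> simp_all)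
    rw [Matrix.det_fin_two] at h1
    simp only [Matrix.submatrix_apply, Matrix.cons_val_zero, Matrix.cons_val_one] at h1
    rw [hh, sub_self] at h1
    exact not_isUnit_zero h1
  have h01 : ∀ j : Fin p, (j : ℕ) ≠ 0 → M ⟨0, by omega⟩ j = 1 := fun j hj =>
    (hs2 ⟨0, by omega⟩ j rfl hj).1
  let s : Fin (p - 1) → Fin p := fun i => ⟨(i : ℕ) + 1, by omega⟩
  have hs0 : ∀ i, (s i : ℕ) ≠ 0 := fun i => Nat.succ_ne_zero _
  have hsinj : Function.Injective s := by
    intro i j hij
    have := congrArg Fin.val hij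
    apply Fin.ext
    simpa [s] using this
  have hgood : Pool.Agent.R524.AO.Good (fun i j : Fin (p - 1) => M (s i) (s j)) := by
    refine ⟨?_, fun i j => hsymm.apply _ _, ?_, ?_⟩
    · rw [Fintype.card_fin, ZMod.card]
      omega
    · intro i j j' hjj hh
      have h1 := hdet ⟨0, by omega⟩ (s i) (s j) (s j') (fun hc => hs0 i (by rw [← hc])) (fun hc =>
        hjj (hsinj hc))
      rw [h01 _ (hs0 j), h01 _ (hs0 j'), one_mul, one_mul] at h1
      exact h1 hh.symm
    · intro i i' j j' hi hj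
      exact hdet _ _ _ _ (fun hc => hi (hsinj hc)) (fun hc => hj (hsinj hc))
  refine Pool.Agent.R524.AO.no_good hgood ⟨p - 2, by omega⟩ ?_ (by rw [ZMod.card]; exact hp7) ?_
  · intro i hi
    refine hs3 (s i) (hs0 i) ?_
    intro hc
    apply hi
    apply Fin.ext
    have h1 : (s i : ℕ) = (i : ℕ) + 1 := rfl
    show (i : ℕ) = p - 2
    omega
  · intro hc
    have h2 : ((2 : ℕ) : ZMod p) = 0 := by
      push_cast
      linear_combination hc
    rw [ZMod.natCast_eq_zero_iff] at h2
    have := Nat.le_of_dvd (by norm_num) h2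
    omega

end Pool.Agent.Results.MP_e1f2d0_co.NoSymmetricStandardForm
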